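import Mathlib
import Pool.Agent.Run7.h53.VD.Tails

/-!
# Inverse factorial expansions of the tails of multiple zeta values, with rational coefficients (helper53)
-/

set_option autoImplicit false

namespace Run7.h53.SX

open Filter Topology Finset
open Pool.Agent.H447R2.MZ (H H_nil H_cons H_cons_zero H_cons_succ H_nonneg Adm val tendsto_H H_le_val H_mono)
open Run7.h53.VD (T T_nil T_step T_tendsto T_zero T_nonneg adm_append_left)

/-- `1 / ((m + 1) ... (m + k))` -/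
noncomputable def rf (k m : ℕ) : ℝ := (∏ i ∈ Finset.range k, ((m : ℝ) + i + 1))⁻¹

lemma rf_zero (m : ℕ) : rf 0 m = 1 := by simp [rf]

lemma rf_pos (k m : ℕ) : 0 < rf k m := by
  unfold rf
  exact inv_pos.2 (Finset.prod_pos fun i _ => by positivity)

lemma rf_succ (k m : ℕ) : rf (k + 1) m * ((m : ℝ) + k + 1) = rf k m := by
  unfold rf
  rw [Finset.prod_range_succ]
  have h1 : (∏ i ∈ Finset.range k, ((m : ℝ) + i + 1)) ≠ 0 :=
    (Finset.prod_pos fun i _ => by positivity).ne'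
  have h2 : ((m : ℝ) + k + 1) ≠ 0 := by positivity
  field_simp

lemma rf_le (k m : ℕ) (hm : 1 ≤ m) : rf k m ≤ ((m : ℝ) ^ k)⁻¹ := by
  unfold rf
  have hm0 : (0 : ℝ) < m := by exact_mod_cast hm
  apply inv_anti₀ (by positivity)
  calc (m : ℝ) ^ k = ∏ i ∈ Finset.range k, (m : ℝ) := by rw [Finset.prod_const, Finset.card_range]
    _ ≤ _ := Finset.prod_le_prod (fun i _ => hm0.le) fun i _ => by
      linarith [Nat.cast_nonneg (α := ℝ) i]

lemma rf_ge (k m : ℕ) (hm : 1 ≤ m) : ((k + 1 : ℝ) ^ k)⁻¹ * ((m : ℝ) ^ k)⁻¹ ≤ rf k m := by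
  unfold rf
  have hm0 : (1 : ℝ) ≤ m := by exact_mod_cast hm
  rw [← mul_inv]
  apply inv_anti₀ (Finset.prod_pos fun i _ => by positivity)
  rw [← mul_pow]
  refine (Finset.prod_le_prod (fun i _ => by positivity) (g := fun _ => ((k : ℝ) + 1) * m)
    fun i hi => ?_).trans (le_of_eq ?_)
  · have h1 : ((i : ℝ) + 1) ≤ k := by exact_mod_cast Finset.mem_range.1 hi
    nlinarith
  · rw [Finset.prod_const, Finset.card_range]

/-- shift of the variable -/
lemma rf_shift (k m : ℕ) : rf k (m + 1) * ((m : ℝ) + 1 + k) = rf k m * ((m : ℝ) + 1) := by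
  induction k with
  | zero => simp [rf_zero]
  | succ k ih =>
    have h1 := rf_succ k m
    have h2 := rf_succ k (m + 1)
    have h3 : (0 : ℝ) < (m : ℝ) + k + 1 := by positivity
    push_cast at h2 ⊢
    rw [← h1] at ih
    have e0 : rf (k + 1) (m + 1) * ((m : ℝ) + 1 + (k + 1)) = rf k (m + 1) := by
      rw [← h2]; ring
    rw [e0]
    refine mul_left_cancel₀ h3.ne' ?_
    calc ((m : ℝ) + k + 1) * rf k (m + 1) = rf k (m + 1) * ((m : ℝ) + 1 + k) := by ring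
      _ = rf (k + 1) m * ((m : ℝ) + k + 1) * ((m : ℝ) + 1) := ih
      _ = _ := by ring

/-- telescoping -/
lemma rf_tel (k m : ℕ) : rf k m - rf k (m + 1) = k * ((((m + 1 : ℕ) : ℝ))⁻¹ * rf k (m + 1)) := by
  have h1 := rf_shift k m
  have h3 : (0 : ℝ) < (m : ℝ) + 1 := by positivity
  refine mul_left_cancel₀ h3.ne' ?_
  have h4 : ((m : ℝ) + 1) * (k * ((((m + 1 : ℕ) : ℝ))⁻¹ * rf k (m + 1))) = k * rf k (m + 1) := by
    push_cast
    field_simp
  rw [h4]
  linarith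

/-- multiplication by `1 / m` -/
lemma rf_mul (k : ℕ) {m : ℕ} (hm : 1 ≤ m) :
    ((m : ℝ))⁻¹ * rf k m = rf (k + 1) m + (k + 1) * ((m : ℝ)⁻¹ * rf (k + 1) m) := by
  have h1 := rf_succ k m
  have hm0 : (0 : ℝ) < m := by exact_mod_cast hm
  rw [← h1]
  field_simp
  ring

/-- the coefficients of the expansion of `(1 / m) rf k` -/
def bt (k j : ℕ) : ℚ := if k < j then ((j - 1).factorial : ℚ) / (k.factorial : ℚ) else 0

lemma rf_exp (k : ℕ) {m : ℕ} (hm : 1 ≤ m) (E : ℕ) (hE : k ≤ E) :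
    ((m : ℝ))⁻¹ * rf k m = ∑ j ∈ Finset.range (E + 1), (bt k j : ℝ) * rf j m +
      (E.factorial : ℝ) / (k.factorial : ℝ) * ((m : ℝ)⁻¹ * rf E m) := by
  induction E, hE using Nat.le_induction with
  | base =>
    rw [Finset.sum_eq_zero, div_self (by positivity), one_mul, zero_add]
    intro j hj
    unfold bt
    rw [if_neg (by have := Finset.mem_range.1 hj; omega), Rat.cast_zero, zero_mul]
  | succ E hE ih =>
    rw [ih, Finset.sum_range_succ _ (E + 1), rf_mul E hm]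
    have h1 : (bt k (E + 1) : ℝ) = (E.factorial : ℝ) / (k.factorial : ℝ) := by
      unfold bt
      rw [if_pos (by omega), Nat.add_sub_cancel]
      push_cast
      rfl
    rw [h1, Nat.factorial_succ]
    push_cast
    ring

/-- `f` has the asymptotic expansion `∑ α_k / ((m + 1) ... (m + k))` -/
def IE (f : ℕ → ℝ) (α : ℕ → ℚ) : Prop := ∀ E : ℕ, ∃ K : ℝ, 0 ≤ K ∧ ∀ m : ℕ, 1 ≤ m →
  |f m - ∑ k ∈ Finset.range (E + 1), (α k : ℝ) * rf k m| ≤ K * ((m : ℝ) ^ (E + 1))⁻¹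

lemma IE.one : IE (fun _ => 1) (fun k => if k = 0 then 1 else 0) := by
  intro E
  refine ⟨0, le_rfl, fun m _ => ?_⟩
  rw [Finset.sum_eq_single 0]
  · simp [rf_zero]
  · intro k _ hk
    simp only
    rw [if_neg hk, Rat.cast_zero, zero_mul]
  · intro h
    exact absurd (Finset.mem_range.2 (Nat.succ_pos _)) h

/-- multiplication by `1 / m` -/
lemma IE.mul {f : ℕ → ℝ} {α : ℕ → ℚ} (h : IE f α) :
    IE (fun m => (m : ℝ)⁻¹ * f m) (fun j => ∑ k ∈ Finset.range j, α k * bt k j) := by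
  intro E
  obtain ⟨K, hK, h1⟩ := h E
  refine ⟨K + ∑ k ∈ Finset.range (E + 1), |(α k : ℝ)| * ((E.factorial : ℝ) / (k.factorial : ℝ)),
    by positivity, fun m hm => ?_⟩
  have hm0 : (1 : ℝ) ≤ m := by exact_mod_cast hm
  have hmp : (0 : ℝ) < m := by linarith
  have h2 := h1 m hm
  have e1 : ∑ k ∈ Finset.range (E + 1), (α k : ℝ) * ((m : ℝ)⁻¹ * rf k m) =
      ∑ j ∈ Finset.range (E + 1), ((∑ k ∈ Finset.range j, α k * bt k j : ℚ) : ℝ) * rf j m +
      (∑ k ∈ Finset.range (E + 1), (α k : ℝ) * ((E.factorial : ℝ) / (k.factorial : ℝ))) *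
        ((m : ℝ)⁻¹ * rf E m) := by
    have e2 : ∀ k ∈ Finset.range (E + 1), (α k : ℝ) * ((m : ℝ)⁻¹ * rf k m) =
        ∑ j ∈ Finset.range (E + 1), (α k : ℝ) * (bt k j : ℝ) * rf j m +
        (α k : ℝ) * ((E.factorial : ℝ) / (k.factorial : ℝ)) * ((m : ℝ)⁻¹ * rf E m) := by
      intro k hk
      rw [rf_exp k hm E (by have := Finset.mem_range.1 hk; omega), mul_add, Finset.mul_sum]
      congr 1
      · exact Finset.sum_congr rfl fun j _ => by ring
      · ring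
    rw [Finset.sum_congr rfl e2, Finset.sum_add_distrib, Finset.sum_comm, Finset.sum_mul]
    congr 1
    refine Finset.sum_congr rfl fun j hj => ?_
    rw [← Finset.sum_mul]
    congr 1
    push_cast
    have hj' := Finset.mem_range.1 hj
    symm
    refine Finset.sum_subset (Finset.range_subset_range.2 (by omega)) fun k _ hk => ?_
    unfold bt
    rw [if_neg (by simpa using hk), Rat.cast_zero, mul_zero]
  have e3 : (m : ℝ)⁻¹ * f m - ∑ j ∈ Finset.range (E + 1),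
      ((∑ k ∈ Finset.range j, α k * bt k j : ℚ) : ℝ) * rf j m =
      (m : ℝ)⁻¹ * (f m - ∑ k ∈ Finset.range (E + 1), (α k : ℝ) * rf k m) +
      (∑ k ∈ Finset.range (E + 1), (α k : ℝ) * ((E.factorial : ℝ) / (k.factorial : ℝ))) *
        ((m : ℝ)⁻¹ * rf E m) := by
    have e4 : (m : ℝ)⁻¹ * ∑ k ∈ Finset.range (E + 1), (α k : ℝ) * rf k m =
        ∑ k ∈ Finset.range (E + 1), (α k : ℝ) * ((m : ℝ)⁻¹ * rf k m) := by
      rw [Finset.mul_sum]
      exact Finset.sum_congr rfl fun k _ => by ring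
    rw [mul_sub, e4, e1]
    ring
  rw [e3]
  refine (abs_add_le _ _).trans ?_
  rw [abs_mul, abs_mul, abs_of_nonneg (inv_nonneg.2 hmp.le),
    abs_of_nonneg (mul_nonneg (inv_nonneg.2 hmp.le) (rf_pos E m).le), add_mul]
  have h3 : (m : ℝ)⁻¹ * rf E m ≤ ((m : ℝ) ^ (E + 1))⁻¹ := by
    rw [pow_succ, mul_inv, mul_comm]
    exact mul_le_mul_of_nonneg_right (rf_le E m hm) (inv_nonneg.2 hmp.le)
  have h4 : (m : ℝ)⁻¹ ≤ 1 := inv_le_one_of_one_le₀ hm0
  refine add_le_add ?_ ?_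
  · calc (m : ℝ)⁻¹ * |f m - ∑ k ∈ Finset.range (E + 1), (α k : ℝ) * rf k m| ≤
        1 * |f m - ∑ k ∈ Finset.range (E + 1), (α k : ℝ) * rf k m| :=
          mul_le_mul_of_nonneg_right h4 (abs_nonneg _)
      _ ≤ _ := by rw [one_mul]; exact h2
  · refine mul_le_mul ?_ h3 (mul_nonneg (inv_nonneg.2 hmp.le) (rf_pos E m).le) (by positivity)
    refine (Finset.abs_sum_le_sum_abs _ _).trans (le_of_eq ?_)
    refine Finset.sum_congr rfl fun k _ => ?_
    rw [abs_mul, abs_of_nonneg (by positivity : (0 : ℝ) ≤ (E.factorial : ℝ) / (k.factorial : ℝ))]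

lemma pow_tel (p : ℕ) {M : ℕ} (hM : 1 ≤ M) :
    (((M + 1 : ℕ) : ℝ) ^ (p + 2))⁻¹ ≤ ((M : ℝ) ^ (p + 1))⁻¹ - (((M + 1 : ℕ) : ℝ) ^ (p + 1))⁻¹ := by
  have hM0 : (0 : ℝ) < M := by exact_mod_cast hM
  have h1 : (((M + 1 : ℕ) : ℝ) ^ (p + 1))⁻¹ * (1 + ((M + 1 : ℕ) : ℝ)⁻¹) ≤ ((M : ℝ) ^ (p + 1))⁻¹ := by
    have h2 : (1 + ((M + 1 : ℕ) : ℝ)⁻¹) * (M : ℝ) ≤ ((M + 1 : ℕ) : ℝ) := by
      push_cast
      have h4 : ((M : ℝ) + 1)⁻¹ * M ≤ 1 := by
        rw [inv_mul_le_iff₀ (by positivity)]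
        linarith
      linarith
    have h3 : (1 + ((M + 1 : ℕ) : ℝ)⁻¹) * (M : ℝ) ^ (p + 1) ≤ ((M + 1 : ℕ) : ℝ) ^ (p + 1) := by
      have h5 : (M : ℝ) ^ p ≤ ((M + 1 : ℕ) : ℝ) ^ p := by
        apply pow_le_pow_left₀ hM0.le
        push_cast
        linarith
      calc (1 + ((M + 1 : ℕ) : ℝ)⁻¹) * (M : ℝ) ^ (p + 1) =
          (1 + ((M + 1 : ℕ) : ℝ)⁻¹) * (M : ℝ) * (M : ℝ) ^ p := by ring
        _ ≤ ((M + 1 : ℕ) : ℝ) * ((M + 1 : ℕ) : ℝ) ^ p :=
            mul_le_mul h2 h5 (by positivity) (by positivity)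
        _ = _ := by ring
    rw [← div_eq_inv_mul, div_le_iff₀ (by positivity), ← div_eq_inv_mul, le_div_iff₀ (by positivity)]
    exact h3
  have h2 : (((M + 1 : ℕ) : ℝ) ^ (p + 2))⁻¹ = (((M + 1 : ℕ) : ℝ) ^ (p + 1))⁻¹ * ((M + 1 : ℕ) : ℝ)⁻¹ := by
    rw [pow_succ ((M + 1 : ℕ) : ℝ) (p + 1), mul_inv]
  rw [h2]
  linarith

/-- comparison of null sequences -/
lemma null_bound {D B : ℕ → ℝ} (hD : Tendsto D atTop (𝓝 0)) (hB : Tendsto B atTop (𝓝 0))
    (h : ∀ M, 1 ≤ M → |D M - D (M + 1)| ≤ B M - B (M + 1)) {M : ℕ} (hM : 1 ≤ M) :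
    |D M| ≤ B M := by
  have h1 : ∀ N, M ≤ N → |D M - D N| ≤ B M - B N := by
    intro N hN
    induction N, hN using Nat.le_induction with
    | base => simp
    | succ N hN ih =>
      have h2 := h N (hM.trans hN)
      have h3 := abs_add_le (D M - D N) (D N - D (N + 1))
      rw [sub_add_sub_cancel] at h3
      linarith
  have h2 : Tendsto (fun N => |D M - D N|) atTop (𝓝 |D M - 0|) :=
    (tendsto_const_nhds.sub hD).abs
  have h3 : Tendsto (fun N => B M - B N) atTop (𝓝 (B M - 0)) := tendsto_const_nhds.sub hB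
  rw [sub_zero] at h2 h3
  exact le_of_tendsto_of_tendsto h2 h3 ((eventually_ge_atTop M).mono fun N hN => h1 N hN)

lemma rf_tendsto (k : ℕ) (hk : k ≠ 0) : Tendsto (rf k) atTop (𝓝 0) := by
  have h1 : Tendsto (fun m : ℕ => ((m : ℝ) ^ k)⁻¹) atTop (𝓝 0) :=
    ((tendsto_pow_atTop hk).comp tendsto_natCast_atTop_atTop).inv_tendsto_atTop
  refine tendsto_of_tendsto_of_tendsto_of_le_of_le' tendsto_const_nhds h1
    (Eventually.of_forall fun m => (rf_pos k m).le) ?_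
  filter_upwards [eventually_ge_atTop 1] with m hm
  exact rf_le k m hm

/-- summation -/
lemma IE.sum {f g : ℕ → ℝ} {α : ℕ → ℚ} (h : IE f α) (h0 : α 0 = 0)
    (hg : ∀ M, g M = g (M + 1) + ((M + 1 : ℕ) : ℝ)⁻¹ * f (M + 1)) (hl : Tendsto g atTop (𝓝 0)) :
    IE g (fun k => α k / k) := by
  intro E
  obtain ⟨K, hK, h1⟩ := h E
  refine ⟨K, hK, fun M hM => ?_⟩
  set D : ℕ → ℝ := fun M => g M - ∑ k ∈ Finset.range (E + 1), ((α k / k : ℚ) : ℝ) * rf k M with hDdef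
  have hD : Tendsto D atTop (𝓝 0) := by
    have h2 : Tendsto (fun M => ∑ k ∈ Finset.range (E + 1), ((α k / k : ℚ) : ℝ) * rf k M) atTop
        (𝓝 (∑ k ∈ Finset.range (E + 1), (0 : ℝ))) := by
      refine tendsto_finsetSum _ fun k _ => ?_
      rcases Nat.eq_zero_or_pos k with rfl | hk
      · simp
      · simpa using (rf_tendsto k hk.ne').const_mul ((α k / k : ℚ) : ℝ)
    rw [Finset.sum_const_zero] at h2
    have h3 := hl.sub h2
    rw [sub_zero] at h3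
    exact h3
  refine null_bound (D := D) (B := fun M => K * ((M : ℝ) ^ (E + 1))⁻¹) hD ?_ (fun M hM => ?_) hM
  · have h2 : Tendsto (fun m : ℕ => ((m : ℝ) ^ (E + 1))⁻¹) atTop (𝓝 0) :=
      ((tendsto_pow_atTop (Nat.succ_ne_zero E)).comp tendsto_natCast_atTop_atTop).inv_tendsto_atTop
    simpa using h2.const_mul K
  · have e1 : D M - D (M + 1) = ((M + 1 : ℕ) : ℝ)⁻¹ * (f (M + 1) -
        ∑ k ∈ Finset.range (E + 1), (α k : ℝ) * rf k (M + 1)) := by
      rw [hDdef]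
      simp only
      rw [hg M]
      have e2 : ∑ k ∈ Finset.range (E + 1), ((α k / k : ℚ) : ℝ) * rf k M -
          ∑ k ∈ Finset.range (E + 1), ((α k / k : ℚ) : ℝ) * rf k (M + 1) =
          ((M + 1 : ℕ) : ℝ)⁻¹ * ∑ k ∈ Finset.range (E + 1), (α k : ℝ) * rf k (M + 1) := by
        rw [← Finset.sum_sub_distrib, Finset.mul_sum]
        refine Finset.sum_congr rfl fun k _ => ?_
        rw [← mul_sub, rf_tel]
        rcases Nat.eq_zero_or_pos k with rfl | hk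
        · rw [h0]; simp
        · have hk0 : (k : ℝ) ≠ 0 := by exact_mod_cast hk.ne'
          push_cast
          field_simp
      rw [mul_sub, ← e2]
      ring
    rw [e1, abs_mul, abs_of_nonneg (by positivity : (0 : ℝ) ≤ ((M + 1 : ℕ) : ℝ)⁻¹)]
    have h2 := h1 (M + 1) (by omega)
    calc ((M + 1 : ℕ) : ℝ)⁻¹ * |f (M + 1) - ∑ k ∈ Finset.range (E + 1), (α k : ℝ) * rf k (M + 1)|
        ≤ ((M + 1 : ℕ) : ℝ)⁻¹ * (K * (((M + 1 : ℕ) : ℝ) ^ (E + 1))⁻¹) :=
          mul_le_mul_of_nonneg_left h2 (by positivity)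
      _ = K * (((M + 1 : ℕ) : ℝ) ^ (E + 2))⁻¹ := by
          rw [pow_succ ((M + 1 : ℕ) : ℝ) (E + 1), mul_inv]
          ring
      _ ≤ K * (((M : ℝ) ^ (E + 1))⁻¹ - (((M + 1 : ℕ) : ℝ) ^ (E + 1))⁻¹) :=
          mul_le_mul_of_nonneg_left (pow_tel E hM) hK
      _ = _ := by ring

/-- powers of `1 / m` -/
lemma IE.powmul {f : ℕ → ℝ} {α : ℕ → ℚ} (h : IE f α) (a : ℕ) (h0 : 1 ≤ a ∨ α 0 = 0) :
    ∃ β : ℕ → ℚ, β 0 = 0 ∧ IE (fun m => ((m : ℝ) ^ a)⁻¹ * f m) β := by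
  induction a with
  | zero =>
    rcases h0 with h0 | h0
    · omega
    · exact ⟨α, h0, by simpa using h⟩
  | succ a ih =>
    have key : ∀ β : ℕ → ℚ, IE (fun m => ((m : ℝ) ^ a)⁻¹ * f m) β →
        ∃ β : ℕ → ℚ, β 0 = 0 ∧ IE (fun m => ((m : ℝ) ^ (a + 1))⁻¹ * f m) β := by
      intro β hβ
      refine ⟨fun j => ∑ k ∈ Finset.range j, β k * bt k j, ?_, ?_⟩
      · simp
      · have := hβ.mul
        intro E
        obtain ⟨K, hK, h1⟩ := this E
        refine ⟨K, hK, fun m hm => ?_⟩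
        have h2 := h1 m hm
        have e1 : ((m : ℝ) ^ (a + 1))⁻¹ * f m = (m : ℝ)⁻¹ * (((m : ℝ) ^ a)⁻¹ * f m) := by
          rw [pow_succ, mul_inv]; ring
        simp only at h2 ⊢
        rw [e1]
        exact h2
    rcases Nat.eq_zero_or_pos a with rfl | ha
    · exact key α (by simpa using h)
    · obtain ⟨β, _, hβ⟩ := ih (Or.inl ha)
      exact key β hβ

/-- **the tails have expansions with rational coefficients** -/
theorem tail_exp (u : List ℕ) (hu : Adm u) : ∃ α : ℕ → ℚ, (u ≠ [] → α 0 = 0) ∧ IE (T u) α := by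
  induction u using List.reverseRecOn with
  | nil =>
    refine ⟨fun k => if k = 0 then 1 else 0, fun h => absurd rfl h, ?_⟩
    have : T [] = fun _ => 1 := by funext m; exact T_nil m
    rw [this]
    exact IE.one
  | append_singleton u a ih =>
    obtain ⟨α, h0, hα⟩ := ih (adm_append_left hu)
    have ha1 : 1 ≤ a := hu.1 a (by simp)
    obtain ⟨b, rfl⟩ : ∃ b, a = b + 1 := ⟨a - 1, by omega⟩
    have h2 : 1 ≤ b ∨ α 0 = 0 := by
      cases u with
      | nil =>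
        left
        have := hu.2 (b + 1) [] rfl
        omega
      | cons x u => exact Or.inr (h0 (by simp))
    obtain ⟨β, hβ0, hβ⟩ := hα.powmul b h2
    refine ⟨fun k => β k / k, fun _ => by simp, hβ.sum hβ0 (fun M => ?_) (T_tendsto hu (by simp))⟩
    have h3 := T_step hu M
    rw [h3]
    congr 1
    rw [pow_succ, mul_inv]
    ring

end Run7.h53.SX
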