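import Mathlib
import Pool.Agent.Run7.h53.VD.Ext

/-!
# Combinations of truncated multiple zeta values which decrease faster than all powers vanish (helper53)
-/

set_option autoImplicit false

namespace Run7.h53.SX

open Filter Topology Finset Polynomial
open Pool.Agent.Y760.ZF (Fc nc nc_eval hv ind_poly)
open Pool.Agent.Y760.ZG (hr hr_nil hr_cons cl hr_cl)

/-- decrease faster than all powers -/
def Fl (f : ℕ → ℝ) : Prop := ∀ E : ℕ, Tendsto (fun k : ℕ => (k : ℝ) ^ E * f k) atTop (𝓝 0)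

lemma Fl.congr {f g : ℕ → ℝ} (h : Fl f) (hfg : ∀ᶠ k in atTop, f k = g k) : Fl g := by
  intro E
  refine (h E).congr' ?_
  filter_upwards [hfg] with k hk
  rw [hk]

lemma Fl.add {f g : ℕ → ℝ} (hf : Fl f) (hg : Fl g) : Fl (fun k => f k + g k) := by
  intro E
  have := (hf E).add (hg E)
  rw [add_zero] at this
  refine this.congr fun k => ?_
  ring

lemma Fl.smul {f : ℕ → ℝ} (hf : Fl f) (c : ℝ) : Fl (fun k => c * f k) := by
  intro E
  have := (hf E).const_mul c
  rw [mul_zero] at this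
  refine this.congr fun k => ?_
  ring

lemma Fl.sum {ι : Type} (s : Finset ι) {f : ι → ℕ → ℝ} (hf : ∀ i ∈ s, Fl (f i)) :
    Fl (fun k => ∑ i ∈ s, f i k) := by
  classical
  induction s using Finset.induction_on with
  | empty =>
    intro E
    simp
  | insert i s hi ih =>
    have h1 := (hf i (Finset.mem_insert_self _ _)).add (ih fun j hj => hf j (Finset.mem_insert_of_mem hj))
    refine h1.congr (Eventually.of_forall fun k => ?_)
    rw [Finset.sum_insert hi]

lemma Fl.pow {f : ℕ → ℝ} (hf : Fl f) (n : ℕ) : Fl (fun k => (k : ℝ) ^ n * f k) := by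
  intro E
  refine (hf (E + n)).congr fun k => ?_
  rw [pow_add]
  ring

lemma Fl.poly {f : ℕ → ℝ} (hf : Fl f) (P : ℝ[X]) : Fl (fun k => P.eval (k : ℝ) * f k) := by
  have h1 : ∀ k : ℕ, P.eval (k : ℝ) * f k =
      ∑ i ∈ Finset.range (P.natDegree + 1), P.coeff i * ((k : ℝ) ^ i * f k) := by
    intro k
    rw [eval_eq_sum_range, Finset.sum_mul]
    exact Finset.sum_congr rfl fun i _ => by ring
  exact (Fl.sum (Finset.range (P.natDegree + 1)) fun i _ => (hf.pow i).smul (P.coeff i)).congr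
    (Eventually.of_forall fun k => (h1 k).symm)

lemma Fl.shift {f : ℕ → ℝ} (hf : Fl f) : Fl (fun k => f (k + 1)) := by
  intro E
  have h1 := (tendsto_add_atTop_iff_nat 1).2 (hf E)
  refine squeeze_zero_norm' ?_ (tendsto_norm_zero.comp h1)
  filter_upwards with k
  simp only [Function.comp, norm_mul, norm_pow, Real.norm_natCast]
  refine mul_le_mul_of_nonneg_right ?_ (norm_nonneg _)
  apply pow_le_pow_left₀ (Nat.cast_nonneg _)
  push_cast
  linarith

/-- a polynomial which is not zero is bounded below at large integers -/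
lemma poly_lower {P : ℝ[X]} (hP : P ≠ 0) : ∃ δ : ℝ, 0 < δ ∧ ∀ᶠ k : ℕ in atTop, δ ≤ |P.eval (k : ℝ)| := by
  by_cases hd : P.natDegree = 0
  · rw [natDegree_eq_zero] at hd
    obtain ⟨c, rfl⟩ := hd
    have hc : c ≠ 0 := fun h => hP (by rw [h, C_0])
    exact ⟨|c|, abs_pos.2 hc, Eventually.of_forall fun k => by rw [eval_C]⟩
  · have h1 : 0 < P.degree := natDegree_pos_iff_degree_pos.1 (Nat.pos_of_ne_zero hd)
    have h2 := (P.abs_tendsto_atTop h1).comp (tendsto_natCast_atTop_atTop (R := ℝ))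
    refine ⟨1, one_pos, ?_⟩
    filter_upwards [h2.eventually_ge_atTop 1] with k hk
    exact hk

theorem flat_zero (n : ℕ) : ∀ Λ : Finset (List ℕ+), Λ.card = n → (∀ t β, (t :: β) ∈ Λ → β ∈ Λ) →
    ∀ φ : List ℕ+ → ℝ[X], Fl (Fc Λ φ) → ∀ β ∈ Λ, φ β = 0 := by
  classical
  induction n with
  | zero =>
    intro Λ hΛ _ φ _ β hβ
    rw [Finset.card_eq_zero.1 hΛ] at hβ
    exact absurd hβ (Finset.notMem_empty β)
  | succ n ih =>
    intro Λ hΛ hsuf φ hfl
    have hne : Λ.Nonempty := Finset.card_pos.1 (by omega)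
    obtain ⟨β0, hβ0, hmax⟩ := Finset.exists_max_image Λ List.length hne
    have hsuf' : ∀ t β, (t :: β) ∈ Λ.erase β0 → β ∈ Λ.erase β0 := by
      intro t β h
      rw [Finset.mem_erase] at h ⊢
      refine ⟨?_, hsuf t β h.2⟩
      rintro rfl
      have h1 := hmax _ h.2
      rw [List.length_cons] at h1
      omega
    have hcard : (Λ.erase β0).card = n := by
      rw [Finset.card_erase_of_mem hβ0]
      omega
    by_cases h0 : φ β0 = 0
    · have h1 : ∀ k, Fc Λ φ k = Fc (Λ.erase β0) φ k := by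
        intro k
        unfold Fc
        rw [← Finset.add_sum_erase _ _ hβ0, h0, eval_zero, zero_mul, zero_add]
      have h2 := ih (Λ.erase β0) hcard hsuf' φ (hfl.congr (Eventually.of_forall h1))
      intro β hβ
      by_cases h3 : β = β0
      · rw [h3, h0]
      · exact h2 β (Finset.mem_erase.2 ⟨h3, hβ⟩)
    exfalso
    set τ : ℕ := ∑ β ∈ Λ, hv β with hτ
    have hτ' : ∀ β ∈ Λ, hv β ≤ τ := fun β hβ =>
      Finset.single_le_sum (f := hv) (fun _ _ => Nat.zero_le _) hβ
    have hnc0 : nc Λ φ τ β0 β0 = 0 := by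
      unfold nc
      rw [Finset.sum_eq_zero, add_zero]
      · ring
      · intro β hβ
        obtain ⟨h1, h2, h3⟩ := Finset.mem_filter.1 hβ
        obtain ⟨t, β', rfl⟩ := List.exists_cons_of_ne_nil h2
        have h4 := hmax _ h1
        rw [List.tail_cons] at h3
        rw [List.length_cons, h3] at h4
        omega
    have hF : ∀ k : ℕ, 1 ≤ k → Fc (Λ.erase β0) (nc Λ φ τ β0) k =
        (k : ℝ) ^ τ * ((φ β0).eval (k : ℝ) * Fc Λ φ (k + 1) -
          (φ β0).eval ((k + 1 : ℕ) : ℝ) * Fc Λ φ k) := by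
      intro k hk
      rw [← nc_eval Λ hsuf φ hτ' β0 hk]
      unfold Fc
      rw [← Finset.add_sum_erase Λ _ hβ0, hnc0, eval_zero, zero_mul, zero_add]
    have hfl' : Fl (Fc (Λ.erase β0) (nc Λ φ τ β0)) := by
      have h1 : Fl (fun k => (φ β0).eval (k : ℝ) * Fc Λ φ (k + 1)) := hfl.shift.poly _
      have h2 : Fl (fun k => ((φ β0).comp (X + C 1)).eval (k : ℝ) * Fc Λ φ k) := hfl.poly _
      have h3 := (h1.add (h2.smul (-1))).pow τ
      refine h3.congr ?_
      filter_upwards [eventually_ge_atTop 1] with k hk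
      rw [hF k hk, eval_comp, eval_add, eval_X, eval_C]
      push_cast
      ring
    have hz := ih (Λ.erase β0) hcard hsuf' _ hfl'
    have hrec : ∀ k : ℕ, 1 ≤ k → (φ β0).eval (k : ℝ) * Fc Λ φ (k + 1) =
        (φ β0).eval ((k + 1 : ℕ) : ℝ) * Fc Λ φ k := by
      intro k hk
      have h1 := hF k hk
      have h2 : Fc (Λ.erase β0) (nc Λ φ τ β0) k = 0 := by
        unfold Fc
        exact Finset.sum_eq_zero fun β hβ => by rw [hz β hβ, eval_zero, zero_mul]
      rw [h2] at h1
      have hk0 : (k : ℝ) ^ τ ≠ 0 := pow_ne_zero _ (by exact_mod_cast (by omega : k ≠ 0))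
      have h3 := (mul_eq_zero.1 h1.symm).resolve_left hk0
      linarith
    obtain ⟨δ, hδ, hlow⟩ := poly_lower h0
    obtain ⟨K, hK⟩ := eventually_atTop.1 hlow
    set K1 := max K 1 with hK1
    have hnz : ∀ k : ℕ, K1 ≤ k → (φ β0).eval (k : ℝ) ≠ 0 := by
      intro k hk h
      have h1 := hK k ((le_max_left _ _).trans hk)
      rw [h, abs_zero] at h1
      linarith
    have hconst : ∀ k : ℕ, K1 ≤ k → Fc Λ φ k * (φ β0).eval (K1 : ℝ) = Fc Λ φ K1 * (φ β0).eval (k : ℝ) := by
      intro k hk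
      induction k, hk using Nat.le_induction with
      | base => ring
      | succ k hk ihk =>
        have h1 := hrec k ((le_max_right _ _).trans hk)
        have h2 := hnz k hk
        refine mul_left_cancel₀ h2 ?_
        calc (φ β0).eval (k : ℝ) * (Fc Λ φ (k + 1) * (φ β0).eval (K1 : ℝ)) =
            ((φ β0).eval (k : ℝ) * Fc Λ φ (k + 1)) * (φ β0).eval (K1 : ℝ) := by ring
          _ = (φ β0).eval ((k + 1 : ℕ) : ℝ) * (Fc Λ φ k * (φ β0).eval (K1 : ℝ)) := by rw [h1]; ring
          _ = (φ β0).eval (k : ℝ) * (Fc Λ φ K1 * (φ β0).eval ((k + 1 : ℕ) : ℝ)) := by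
              rw [ihk]; ring
    have hFK : Fc Λ φ K1 = 0 := by
      by_contra hcon
      have h1 := (hfl 0).mul_const ((φ β0).eval (K1 : ℝ))
      rw [zero_mul] at h1
      have h2 : 0 < |Fc Λ φ K1| * δ := mul_pos (abs_pos.2 hcon) hδ
      have h3 : Tendsto (fun k : ℕ => |(k : ℝ) ^ 0 * Fc Λ φ k * (φ β0).eval (K1 : ℝ)|) atTop (𝓝 0) := by
        have := h1.abs
        rwa [abs_zero] at this
      obtain ⟨k, hk1, hk2⟩ := ((h3.eventually (gt_mem_nhds h2)).and (eventually_ge_atTop K1)).exists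
      rw [pow_zero, one_mul, hconst k hk2, abs_mul] at hk1
      have h4 := hK k ((le_max_left _ _).trans hk2)
      have h5 := mul_le_mul_of_nonneg_left h4 (abs_nonneg (Fc Λ φ K1))
      linarith
    have hall : ∀ k : ℕ, K1 ≤ k → Fc Λ φ k = 0 := by
      intro k hk
      have h1 := hconst k hk
      rw [hFK, zero_mul] at h1
      exact (mul_eq_zero.1 h1).resolve_right (hnz K1 le_rfl)
    exact h0 (ind_poly Λ φ K1 hall β0 hβ0)

end Run7.h53.SX
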