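import Mathlib
import Pool.Agent.Run7.h53.SX.Flat
import Pool.Agent.Run7.h53.SX.Asy

/-!
# Words with a common last part (helper53)
-/

set_option autoImplicit false

namespace Run7.h53.SX

open Filter Topology Finset
open Pool.Agent.H447R2.MZ (H H_nil H_cons H_cons_zero H_cons_succ H_nonneg Adm val tendsto_H H_le_val H_mono)
open Pool.Agent.Q217.TT (ep ep_nil ep_self ep_nonneg ep_succ ep_left ep_anti ep_mono H_app ep_pos)
open Pool.Agent.Y760.ZF (Fc mem_tls tls)
open Pool.Agent.Y760.ZG (hr hr_nil hr_cons cl hr_cl)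
open Pool.Agent.R404.MZ (cl_of)
open Run7.h53.VD (T T_nil T_step T_tendsto T_zero T_nonneg adm_append_left tailF cf cf_sum Rp Bd rep sm
  sm_length H_hr ep_zero ep_monotone tendsto_T ep_le_H)

/-! ### Independence of the tails modulo rapidly decreasing functions -/

/-- the combination of the tails is a combination of truncated sums, not all coefficients zero -/
theorem tail_comb {U : Finset (List ℕ)} {c : List ℕ → ℝ} (hU : ∀ u ∈ U, Adm u)
    (hc : ∃ u ∈ U, c u ≠ 0) : ∃ (S : Finset (List ℕ)) (C : List ℕ → ℝ),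
    (∀ v ∈ S, ∀ x ∈ v, 1 ≤ x) ∧ (∃ v ∈ S, C v ≠ 0) ∧ ∀ M, tailF U c M = ∑ v ∈ S, C v * H v M := by
  classical
  have hrep : ∀ u, ∃ l : List (ℝ × List ℕ), u ∈ U →
      (∀ x ∈ l, x.2.length < u.length) ∧ (∀ x ∈ l, ∀ y ∈ x.2, 1 ≤ y) ∧
      Rp (T u) (((-1) ^ u.length, u.reverse) :: l) := by
    intro u
    by_cases hu : u ∈ U
    · obtain ⟨l, h1, h2, h3, h4⟩ := rep u.sum u (hU u hu) fun x hx =>
        List.single_le_sum (fun _ _ => Nat.zero_le _) x hx
      exact ⟨l, fun _ => ⟨h2, fun x hx y hy => ((h3 x hx).2 y hy).1, h4⟩⟩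
    · exact ⟨[], fun h => absurd h hu⟩
  choose L hL using hrep
  set tot : List (ℝ × List ℕ) := U.toList.flatMap fun u =>
    sm (c u) (((-1) ^ u.length, u.reverse) :: L u) with htot
  have hRp : Rp (tailF U c) tot := by
    intro M
    unfold tailF
    rw [htot, List.map_flatMap, List.flatMap_def, List.sum_flatten, List.map_map]
    rw [← Finset.sum_map_toList U]
    congr 1
    refine List.map_congr_left fun u hu => ?_
    have h1 := ((hL u (Finset.mem_toList.1 hu)).2.2).sm (c u) M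
    simp only [Function.comp]
    exact h1
  set S : Finset (List ℕ) := (tot.map Prod.snd).toFinset with hS
  have hmemS : ∀ x ∈ tot, x.2 ∈ S := fun x hx => by
    rw [hS, List.mem_toFinset]
    exact List.mem_map_of_mem hx
  refine ⟨S, cf tot, ?_, ?_, fun M => ?_⟩
  · intro v hv x hx
    rw [hS, List.mem_toFinset] at hv
    obtain ⟨y, hy, rfl⟩ := List.mem_map.1 hv
    obtain ⟨u, hu, hy⟩ := List.mem_flatMap.1 hy
    have hu' := Finset.mem_toList.1 hu
    obtain ⟨z, hz, rfl⟩ := List.mem_map.1 hy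
    rcases List.mem_cons.1 hz with rfl | hz
    · exact (hU u hu').1 x (List.mem_reverse.1 hx)
    · exact (hL u hu').2.1 z hz x hx
  · obtain ⟨u1, hu1, h1⟩ := hc
    obtain ⟨u0, hu0, hmax⟩ := Finset.exists_max_image (U.filter fun u => c u ≠ 0) List.length
      ⟨u1, Finset.mem_filter.2 ⟨hu1, h1⟩⟩
    obtain ⟨hu0, h0⟩ := Finset.mem_filter.1 hu0
    have hval : cf tot u0.reverse = c u0 * (-1) ^ u0.length := by
      unfold cf
      rw [htot, List.map_flatMap, List.flatMap_def, List.sum_flatten, List.map_map]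
      have h2 : ∀ u ∈ U.toList, (List.sum ∘ fun u => List.map (fun x : ℝ × List ℕ =>
          if x.2 = u0.reverse then x.1 else 0) (sm (c u) (((-1) ^ u.length, u.reverse) :: L u))) u =
          if u = u0 then c u0 * (-1) ^ u0.length else 0 := by
        intro u hu
        have hu' := Finset.mem_toList.1 hu
        simp only [Function.comp]
        unfold sm
        rw [List.map_cons, List.map_cons, List.sum_cons]
        have h3 : (List.map (fun x : ℝ × List ℕ => if x.2 = u0.reverse then x.1 else 0)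
            (List.map (fun x : ℝ × List ℕ => (c u * x.1, x.2)) (L u))).sum = 0 := by
          refine List.sum_eq_zero fun y hy => ?_
          obtain ⟨x, hx, rfl⟩ := List.mem_map.1 hy
          obtain ⟨z, hz, rfl⟩ := List.mem_map.1 hx
          by_cases hcu : c u = 0
          · simp [hcu]
          · rw [if_neg]
            intro h4
            have h5 := (hL u hu').1 z hz
            have h6 := hmax u (Finset.mem_filter.2 ⟨hu', hcu⟩)
            have h7 : z.2.length = u0.length := by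
              have := congrArg List.length h4
              simpa using this
            omega
        rw [h3, add_zero]
        by_cases h4 : u = u0
        · subst h4
          rw [if_pos rfl, if_pos rfl]
        · rw [if_neg, if_neg h4]
          intro h5
          exact h4 (List.reverse_injective h5)
      rw [List.map_congr_left h2]
      rw [Finset.sum_map_toList U (fun u => if u = u0 then c u0 * (-1) ^ u0.length else 0),
        Finset.sum_ite_eq', if_pos hu0]
    refine ⟨u0.reverse, ?_, ?_⟩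
    · by_contra hcon
      have h2 : cf tot u0.reverse = 0 := by
        unfold cf
        refine List.sum_eq_zero fun y hy => ?_
        obtain ⟨x, hx, rfl⟩ := List.mem_map.1 hy
        rw [if_neg]
        intro h3
        exact hcon (h3 ▸ hmemS x hx)
      rw [hval] at h2
      rcases mul_eq_zero.1 h2 with h3 | h3
      · exact h0 h3
      · exact pow_ne_zero _ (by norm_num) h3
    · rw [hval]
      exact mul_ne_zero h0 (pow_ne_zero _ (by norm_num))
  · rw [hRp M]
    exact cf_sum tot S hmemS (fun v => H v M)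

/-- **the tails are linearly independent modulo rapidly decreasing functions** -/
theorem tail_flat {U : Finset (List ℕ)} {c : List ℕ → ℝ} (hU : ∀ u ∈ U, Adm u)
    (hf : ∀ E : ℕ, ∃ K : ℝ, ∀ m : ℕ, 1 ≤ m → |tailF U c m| ≤ K * ((m : ℝ) ^ (E + 1))⁻¹) :
    ∀ u ∈ U, c u = 0 := by
  classical
  by_contra hcon
  push Not at hcon
  obtain ⟨S, C, hS1, ⟨v, hv, hCv⟩, hS2⟩ := tail_comb hU hcon
  set kp : List ℕ → List ℕ+ := fun v => v.map Nat.toPNat' with hkp
  have hcl : ∀ v ∈ S, cl (kp v) = v := fun v hv => cl_of v (hS1 v hv)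
  set Λ0 : Finset (List ℕ+) := S.image kp with hΛ0
  set φ : List ℕ+ → Polynomial ℝ := fun β => if β ∈ Λ0 then Polynomial.C (C (cl β)) else 0 with hφ
  have hsub : Λ0 ⊆ tls Λ0 := fun β hβ => mem_tls.2 ⟨β, hβ, List.suffix_refl _⟩
  have hinj : Set.InjOn kp S := fun v hv w hw h => by rw [← hcl v hv, ← hcl w hw, h]
  have hval : ∀ k : ℕ, 1 ≤ k → tailF U c (k - 1) = Fc (tls Λ0) φ k := by
    intro k hk
    rw [hS2]
    unfold Fc
    rw [← Finset.sum_subset hsub (f := fun β => (φ β).eval (k : ℝ) * hr (cl β) k)]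
    · rw [hΛ0, Finset.sum_image hinj]
      refine Finset.sum_congr rfl fun v hv => ?_
      rw [hφ]
      simp only
      rw [if_pos (Finset.mem_image_of_mem kp hv), Polynomial.eval_C, hcl v hv, H_hr,
        Nat.sub_add_cancel hk]
    · intro β _ hβ
      rw [hφ]
      simp only
      rw [if_neg hβ, Polynomial.eval_zero, zero_mul]
  have hfl : Fl (Fc (tls Λ0) φ) := by
    intro E
    obtain ⟨K, hK⟩ := hf E
    have h1 : Tendsto (fun k : ℕ => (|K| * 2 ^ (E + 1)) * ((k : ℝ))⁻¹) atTop (𝓝 0) := by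
      have := (tendsto_inv_atTop_zero.comp (tendsto_natCast_atTop_atTop (R := ℝ))).const_mul
        (|K| * 2 ^ (E + 1))
      rw [mul_zero] at this
      exact this
    refine squeeze_zero_norm' ?_ h1
    filter_upwards [eventually_ge_atTop 2] with k hk
    have hk0 : (0 : ℝ) < k := by exact_mod_cast (by omega : 0 < k)
    have h2 := hK (k - 1) (by omega)
    rw [← hval k (by omega), norm_mul, norm_pow, Real.norm_natCast, Real.norm_eq_abs]
    have hk1 : (k : ℝ) ≤ 2 * ((k - 1 : ℕ) : ℝ) := by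
      rw [Nat.cast_sub (by omega : 1 ≤ k)]
      have : (2 : ℝ) ≤ k := by exact_mod_cast hk
      push_cast
      linarith
    have hk2 : (0 : ℝ) < ((k - 1 : ℕ) : ℝ) := by exact_mod_cast (by omega : 0 < k - 1)
    have h3 : (((k - 1 : ℕ) : ℝ) ^ (E + 1))⁻¹ ≤ 2 ^ (E + 1) * ((k : ℝ) ^ (E + 1))⁻¹ := by
      rw [← div_eq_mul_inv, ← one_div, div_le_div_iff₀ (by positivity) (by positivity), one_mul,
        ← mul_pow]
      exact pow_le_pow_left₀ hk0.le hk1 _
    calc (k : ℝ) ^ E * |tailF U c (k - 1)| ≤ (k : ℝ) ^ E * (|K| * (2 ^ (E + 1) * ((k : ℝ) ^ (E + 1))⁻¹)) := by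
          refine mul_le_mul_of_nonneg_left (h2.trans ?_) (by positivity)
          refine (mul_le_mul_of_nonneg_right (le_abs_self K) (by positivity)).trans ?_
          exact mul_le_mul_of_nonneg_left h3 (abs_nonneg K)
      _ = (|K| * 2 ^ (E + 1)) * ((k : ℝ))⁻¹ := by
          rw [pow_succ (k : ℝ) E]
          field_simp
  have hz := flat_zero (tls Λ0).card (tls Λ0) rfl (fun t β h => by
    obtain ⟨γ, hγ, h1⟩ := mem_tls.1 h
    exact mem_tls.2 ⟨γ, hγ, (List.suffix_cons t β).trans h1⟩) φ hfl (kp v)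
    (hsub (Finset.mem_image_of_mem kp hv))
  rw [hφ] at hz
  simp only at hz
  rw [if_pos (Finset.mem_image_of_mem kp hv), hcl v hv, Polynomial.C_eq_zero] at hz
  exact hCv hz

/-! ### Uniform lower bound -/

theorem uniform (U : Finset (List ℕ)) (hU : ∀ u ∈ U, Adm u) : ∃ (E : ℕ) (κ : ℝ), 0 < κ ∧
    ∀ (c : List ℕ → ℤ) (X : ℝ), (∀ u ∈ U, |(c u : ℝ)| ≤ κ * X) → (∃ u ∈ U, c u ≠ 0) →
    ∃ σ : ℝ, (σ = 1 ∨ σ = -1) ∧ ∀ m : ℕ, 1 ≤ m → X ≤ m →
      κ * ((m : ℝ) ^ E)⁻¹ ≤ σ * tailF U (fun u => c u) m := by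
  classical
  have hexp : ∀ u, ∃ α : ℕ → ℚ, u ∈ U → IE (T u) α := by
    intro u
    by_cases hu : u ∈ U
    · obtain ⟨α, _, h⟩ := tail_exp u (hU u hu)
      exact ⟨α, fun _ => h⟩
    · exact ⟨0, fun h => absurd h hu⟩
  choose α hα using hexp
  -- constants of the expansions
  have hKex : ∀ u (k : ℕ), ∃ K : ℝ, 0 ≤ K ∧ (u ∈ U → ∀ m : ℕ, 1 ≤ m →
      |T u m - ∑ j ∈ Finset.range (k + 1), (α u j : ℝ) * rf j m| ≤ K * ((m : ℝ) ^ (k + 1))⁻¹) := by
    intro u k
    by_cases hu : u ∈ U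
    · obtain ⟨K, hK, h⟩ := hα u hu k
      exact ⟨K, hK, fun _ => h⟩
    · exact ⟨0, le_rfl, fun h => absurd h hu⟩
  choose Kc hKc0 hKc using hKex
  have hcomb : ∀ (c : List ℕ → ℝ) (k m : ℕ), 1 ≤ m →
      |tailF U c m - ∑ j ∈ Finset.range (k + 1), (∑ u ∈ U, c u * (α u j : ℝ)) * rf j m| ≤
        (∑ u ∈ U, |c u| * Kc u k) * ((m : ℝ) ^ (k + 1))⁻¹ := by
    intro c k m hm
    have e1 : tailF U c m - ∑ j ∈ Finset.range (k + 1), (∑ u ∈ U, c u * (α u j : ℝ)) * rf j m =
        ∑ u ∈ U, c u * (T u m - ∑ j ∈ Finset.range (k + 1), (α u j : ℝ) * rf j m) := by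
      unfold tailF
      simp only [mul_sub, Finset.sum_sub_distrib, Finset.mul_sum, Finset.sum_mul]
      congr 1
      rw [Finset.sum_comm]
      exact Finset.sum_congr rfl fun u _ => Finset.sum_congr rfl fun j _ => by ring
    rw [e1, Finset.sum_mul]
    refine (Finset.abs_sum_le_sum_abs _ _).trans (Finset.sum_le_sum fun u hu => ?_)
    rw [abs_mul, mul_assoc]
    exact mul_le_mul_of_nonneg_left (hKc u k hu m hm) (abs_nonneg _)
  -- finitely many coefficients suffice
  obtain ⟨E, hE⟩ : ∃ E : ℕ, ∀ c : U → ℚ, (∀ k ≤ E, ∑ u : U, c u * α u k = 0) → c = 0 := by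
    set W : ℕ → Submodule ℚ (U → ℚ) := fun E =>
      { carrier := {c | ∀ k ≤ E, ∑ u : U, c u * α u k = 0}
        add_mem' := fun {a b} ha hb k hk => by
          have h1 := ha k hk
          have h2 := hb k hk
          simp only [Pi.add_apply, add_mul, Finset.sum_add_distrib]
          rw [h1, h2, add_zero]
        zero_mem' := fun k _ => by simp
        smul_mem' := fun r a ha k hk => by
          have h1 := ha k hk
          simp only [Pi.smul_apply, smul_eq_mul, mul_assoc]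
          rw [← Finset.mul_sum, h1, mul_zero] } with hW
    have hanti : ∀ a b, a ≤ b → W b ≤ W a := fun a b hab c hc k hk => hc k (hk.trans hab)
    obtain ⟨n, hn⟩ := IsArtinian.monotone_stabilizes (R := ℚ) (M := U → ℚ)
      ⟨fun n => OrderDual.toDual (W n), fun a b hab => hanti a b hab⟩
    refine ⟨n, fun c hc => ?_⟩
    have hall : ∀ k, ∑ u : U, c u * α u k = 0 := by
      intro k
      have h1 : c ∈ W n := hc
      have h2 : W n = W (max n k) := OrderDual.toDual.injective (hn (max n k) (le_max_left _ _))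
      rw [h2] at h1
      exact h1 k (le_max_right _ _)
    set c' : List ℕ → ℝ := fun u => if hu : u ∈ U then ((c ⟨u, hu⟩ : ℚ) : ℝ) else 0 with hc'
    have hz : ∀ j, ∑ u ∈ U, c' u * (α u j : ℝ) = 0 := by
      intro j
      rw [← Finset.sum_coe_sort U fun u => c' u * (α u j : ℝ)]
      have h1 := hall j
      have h2 : ((∑ u : U, c u * α u j : ℚ) : ℝ) = 0 := by rw [h1, Rat.cast_zero]
      rw [← h2]
      push_cast
      refine Finset.sum_congr rfl fun u _ => ?_
      rw [hc']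
      simp only
      rw [dif_pos u.2]
    have h3 := tail_flat (U := U) (c := c') hU (fun E => ⟨∑ u ∈ U, |c' u| * Kc u E, fun m hm => by
      have h4 := hcomb c' E m hm
      simp only [hz, zero_mul, Finset.sum_const_zero, sub_zero] at h4
      exact h4⟩)
    funext u
    have h5 := h3 u u.2
    rw [hc'] at h5
    simp only at h5
    rw [dif_pos u.2] at h5
    exact_mod_cast h5
  -- a common denominator
  set D : ℕ := ∏ u ∈ U, ∏ k ∈ Finset.range (E + 1), (α u k).den with hD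
  have hD0 : 0 < D := Finset.prod_pos fun u _ => Finset.prod_pos fun k _ => (α u k).den_pos
  have hDint : ∀ u ∈ U, ∀ k ≤ E, ∃ z : ℤ, (D : ℚ) * α u k = z := by
    intro u hu k hk
    have h1 : (α u k).den ∣ D := (Finset.dvd_prod_of_mem (fun k => (α u k).den)
      (Finset.mem_range.2 (by omega))).trans (Finset.dvd_prod_of_mem
        (fun u => ∏ k ∈ Finset.range (E + 1), (α u k).den) hu)
    obtain ⟨q, hq⟩ := h1
    refine ⟨q * (α u k).num, ?_⟩
    rw [hq]
    push_cast
    have h2 : (((α u k).den : ℚ)) * α u k = (α u k).num := Rat.den_mul_eq_num _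
    calc ((α u k).den : ℚ) * q * α u k = q * (((α u k).den : ℚ) * α u k) := by ring
      _ = _ := by rw [h2]
  set K : ℝ := ∑ u ∈ U, ∑ k ∈ Finset.range (E + 1), Kc u k + 1 with hK
  have hK1 : 1 ≤ K := by
    have : 0 ≤ ∑ u ∈ U, ∑ k ∈ Finset.range (E + 1), Kc u k :=
      Finset.sum_nonneg fun u _ => Finset.sum_nonneg fun k _ => hKc0 u k
    rw [hK]
    linarith
  set P : ℝ := ((E : ℝ) + 1) ^ E with hP
  have hP1 : 1 ≤ P := one_le_pow₀ (by linarith [Nat.cast_nonneg (α := ℝ) E])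
  have hDr : (1 : ℝ) ≤ D := by exact_mod_cast hD0
  set κ : ℝ := (2 * K * D * P)⁻¹ with hκ
  have hden : (0 : ℝ) < 2 * K * D * P := by positivity
  refine ⟨E, κ, inv_pos.2 hden, fun c X hc hne => ?_⟩
  -- the first coefficient which is not zero
  have hex : ∃ k, k ≤ E ∧ ∑ u ∈ U, (c u : ℚ) * α u k ≠ 0 := by
    by_contra hcon
    push Not at hcon
    have h1 := hE (fun u => (c u : ℚ)) fun k hk => by
      rw [Finset.sum_coe_sort U fun u => (c u : ℚ) * α u k]
      exact hcon k hk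
    obtain ⟨u, hu, h2⟩ := hne
    have h3 := congrFun h1 ⟨u, hu⟩
    simp only [Pi.zero_apply] at h3
    exact h2 (by exact_mod_cast h3)
  obtain ⟨hk0E, hk0⟩ := Nat.find_spec hex
  set k0 := Nat.find hex with hk0def
  have hmin : ∀ j < k0, ∑ u ∈ U, (c u : ℚ) * α u j = 0 := by
    intro j hj
    have := Nat.find_min hex hj
    by_contra hcon
    exact this ⟨by omega, hcon⟩
  set A : ℝ := ∑ u ∈ U, (c u : ℝ) * (α u k0 : ℝ) with hA
  have hAq : A = ((∑ u ∈ U, (c u : ℚ) * α u k0 : ℚ) : ℝ) := by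
    rw [hA]
    push_cast
    rfl
  have hAD : 1 ≤ D * |A| := by
    choose! z hz using fun u hu => hDint u hu k0 hk0E
    have h1 : (D : ℝ) * A = ((∑ u ∈ U, c u * z u : ℤ) : ℝ) := by
      have h2 : (D : ℚ) * ∑ u ∈ U, (c u : ℚ) * α u k0 = ((∑ u ∈ U, c u * z u : ℤ) : ℚ) := by
        rw [Finset.mul_sum]
        push_cast
        refine Finset.sum_congr rfl fun u hu => ?_
        rw [← hz u hu]
        ring
      rw [hAq]
      exact_mod_cast h2
    have h3 : (D : ℝ) * A ≠ 0 := by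
      rw [hAq]
      refine mul_ne_zero (by positivity) ?_
      exact_mod_cast hk0
    rw [← abs_of_nonneg (by positivity : (0 : ℝ) ≤ D), ← abs_mul, h1]
    rw [h1] at h3
    have h4 : (∑ u ∈ U, c u * z u : ℤ) ≠ 0 := by exact_mod_cast h3
    have h5 := Int.one_le_abs h4
    rw [← Int.cast_abs]
    exact_mod_cast h5
  have hA0 : A ≠ 0 := by
    rintro h
    rw [h, abs_zero, mul_zero] at hAD
    linarith
  refine ⟨SignType.sign A, ?_, fun m hm hX => ?_⟩
  · rcases lt_or_gt_of_ne hA0 with h | h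
    · right
      rw [sign_neg h]; simp
    · left
      rw [sign_pos h]; simp
  have hm0 : (0 : ℝ) < m := by exact_mod_cast hm
  have hm1 : (1 : ℝ) ≤ m := by exact_mod_cast hm
  have h1 := hcomb (fun u => (c u : ℝ)) k0 m hm
  rw [Finset.sum_range_succ, Finset.sum_eq_zero, zero_add] at h1
  swap
  · intro j hj
    have h2 := hmin j (Finset.mem_range.1 hj)
    have h3 : ∑ u ∈ U, (c u : ℝ) * (α u j : ℝ) = 0 := by
      have : ((∑ u ∈ U, (c u : ℚ) * α u j : ℚ) : ℝ) = 0 := by rw [h2, Rat.cast_zero]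
      rw [← this]
      push_cast
      rfl
    rw [h3, zero_mul]
  -- the error
  have hX0 : 0 ≤ κ * X := by
    obtain ⟨u, hu, _⟩ := hne
    exact (abs_nonneg _).trans (hc u hu)
  have h2 : ∑ u ∈ U, |(c u : ℝ)| * Kc u k0 ≤ κ * X * K := by
    have h3 : ∑ u ∈ U, |(c u : ℝ)| * Kc u k0 ≤ ∑ u ∈ U, κ * X * Kc u k0 :=
      Finset.sum_le_sum fun u hu => mul_le_mul_of_nonneg_right (hc u hu) (hKc0 u k0)
    refine h3.trans ?_
    rw [← Finset.mul_sum]
    refine mul_le_mul_of_nonneg_left ?_ hX0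
    rw [hK]
    have h4 : ∑ u ∈ U, Kc u k0 ≤ ∑ u ∈ U, ∑ k ∈ Finset.range (E + 1), Kc u k :=
      Finset.sum_le_sum fun u _ => Finset.single_le_sum (f := fun k => Kc u k)
        (fun k _ => hKc0 u k) (Finset.mem_range.2 (by omega))
    linarith
  have h3 : (∑ u ∈ U, |(c u : ℝ)| * Kc u k0) * ((m : ℝ) ^ (k0 + 1))⁻¹ ≤
      (2 * D * P)⁻¹ * ((m : ℝ) ^ k0)⁻¹ := by
    have h4 : κ * X * K ≤ (2 * D * P)⁻¹ * m := by
      have h5 : κ * K = (2 * D * P)⁻¹ := by
        rw [hκ]
        field_simp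
      calc κ * X * K = (κ * K) * X := by ring
        _ ≤ (κ * K) * m := mul_le_mul_of_nonneg_left hX (by positivity)
        _ = _ := by rw [h5]
    calc (∑ u ∈ U, |(c u : ℝ)| * Kc u k0) * ((m : ℝ) ^ (k0 + 1))⁻¹ ≤
        ((2 * D * P)⁻¹ * m) * ((m : ℝ) ^ (k0 + 1))⁻¹ :=
          mul_le_mul_of_nonneg_right (h2.trans h4) (by positivity)
      _ = _ := by
          rw [pow_succ]
          field_simp
  -- the main term
  have h4 : (D * P)⁻¹ * ((m : ℝ) ^ k0)⁻¹ ≤ |A| * rf k0 m := by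
    have h5 := rf_ge k0 m hm
    have h6 : P⁻¹ ≤ (((k0 : ℝ) + 1) ^ k0)⁻¹ := by
      apply inv_anti₀ (by positivity)
      rw [hP]
      have h7 : (k0 : ℝ) ≤ E := by exact_mod_cast hk0E
      calc ((k0 : ℝ) + 1) ^ k0 ≤ ((E : ℝ) + 1) ^ k0 := pow_le_pow_left₀ (by positivity) (by linarith) _
        _ ≤ ((E : ℝ) + 1) ^ E := pow_le_pow_right₀ (by linarith [Nat.cast_nonneg (α := ℝ) E]) hk0E
    have h7 : (D : ℝ)⁻¹ ≤ |A| := by
      rw [inv_le_iff_one_le_mul₀ (by positivity)]
      linarith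
    calc (D * P)⁻¹ * ((m : ℝ) ^ k0)⁻¹ = (D : ℝ)⁻¹ * (P⁻¹ * ((m : ℝ) ^ k0)⁻¹) := by
          rw [mul_inv]; ring
      _ ≤ |A| * ((((k0 : ℝ) + 1) ^ k0)⁻¹ * ((m : ℝ) ^ k0)⁻¹) :=
          mul_le_mul h7 (mul_le_mul_of_nonneg_right h6 (by positivity)) (by positivity) (abs_nonneg _)
      _ ≤ _ := mul_le_mul_of_nonneg_left h5 (abs_nonneg _)
  have h5 : |tailF U (fun u => (c u : ℝ)) m - A * rf k0 m| ≤ (2 * D * P)⁻¹ * ((m : ℝ) ^ k0)⁻¹ :=
    h1.trans h3
  have h6 : (SignType.sign A : ℝ) * A = |A| := by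
    rw [mul_comm]
    exact self_mul_sign A
  have h7 : |(SignType.sign A : ℝ)| = 1 := by
    rcases lt_or_gt_of_ne hA0 with h | h
    · rw [sign_neg h]; simp
    · rw [sign_pos h]; simp
  have h8 : |(SignType.sign A : ℝ) * (tailF U (fun u => (c u : ℝ)) m - A * rf k0 m)| ≤
      (2 * D * P)⁻¹ * ((m : ℝ) ^ k0)⁻¹ := by
    rw [abs_mul, h7, one_mul]
    exact h5
  have h9 := neg_abs_le ((SignType.sign A : ℝ) * (tailF U (fun u => (c u : ℝ)) m - A * rf k0 m))
  have h10 : (SignType.sign A : ℝ) * tailF U (fun u => (c u : ℝ)) m =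
      (SignType.sign A : ℝ) * (tailF U (fun u => (c u : ℝ)) m - A * rf k0 m) + |A| * rf k0 m := by
    rw [← h6]
    ring
  have h11 : (D * P)⁻¹ = 2 * (2 * (D : ℝ) * P)⁻¹ := by
    field_simp
  have h12 : κ * ((m : ℝ) ^ E)⁻¹ ≤ (2 * D * P)⁻¹ * ((m : ℝ) ^ k0)⁻¹ := by
    refine mul_le_mul ?_ ?_ (by positivity) (by positivity)
    · rw [hκ]
      apply inv_anti₀ (by positivity)
      have : 2 * D * P * 1 ≤ 2 * D * P * K := mul_le_mul_of_nonneg_left hK1 (by positivity)
      linarith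
    · apply inv_anti₀ (by positivity)
      exact pow_le_pow_right₀ hm1 hk0E
  rw [h10]
  rw [h11] at h4
  linarith

end Run7.h53.SX
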