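import Mathlib
import Pool.Agent.Run7.h53.SX.Main

/-!
# Words with a common last part: the theorem (helper53)
-/

set_option autoImplicit false

namespace Run7.h53.SX

open Filter Topology Finset
open Pool.Agent.H447R2.MZ (H H_nil H_cons H_cons_zero H_cons_succ H_nonneg Adm val tendsto_H H_le_val H_mono)
open Pool.Agent.Q217.TT (ep ep_nil ep_self ep_nonneg ep_succ ep_left ep_anti ep_mono H_app ep_pos)
open Run7.h53.VD (T T_nil T_step T_tendsto T_zero T_nonneg adm_append_left tailF ep_zero ep_monotone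
  tendsto_T ep_le_H ep_bdd)

lemma H_small (l : List ℕ) : ∀ n, n < l.length → H l n = 0 := by
  induction l with
  | nil => intro n hn; exact absurd hn (Nat.not_lt_zero n)
  | cons a l ih =>
    intro n hn
    rw [H_cons]
    refine Finset.sum_eq_zero fun j hj => ?_
    rw [List.length_cons] at hn
    rw [ih j (by have := Finset.mem_range.1 hj; omega), mul_zero]

lemma H_pos (l : List ℕ) {n : ℕ} (hn : l.length ≤ n) : 0 < H l n := by
  have h1 := ep_pos l 0
  rw [Nat.zero_add, ep_zero] at h1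
  exact h1.trans_le (H_mono l hn)

lemma ep_le_T {u : List ℕ} (hu : Adm u) (M N : ℕ) : ep u M N ≤ T u M :=
  le_ciSup (ep_bdd hu M) N

/-- the value of `u a s` as a sum over the variable of the letter `a` -/
theorem hasSum_split {u : List ℕ} {a : ℕ} {s : List ℕ} (h : Adm (u ++ a :: s)) :
    HasSum (fun n => H s n * (((n + 1 : ℕ) : ℝ) ^ a)⁻¹ * T u (n + 1)) (val (u ++ a :: s)) := by
  have hu : Adm u := adm_append_left h
  rw [hasSum_iff_tendsto_nat_of_nonneg (fun n => mul_nonneg (mul_nonneg (H_nonneg _ _) (by positivity))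
    (T_nonneg hu _))]
  refine tendsto_of_tendsto_of_tendsto_of_le_of_le (tendsto_H _ h) tendsto_const_nhds (fun N => ?_)
    fun N0 => ?_
  · simp only
    rw [H_app]
    exact Finset.sum_le_sum fun n _ => mul_le_mul_of_nonneg_left (ep_le_T hu _ _)
      (mul_nonneg (H_nonneg _ _) (by positivity))
  · have h1 : Tendsto (fun N => ∑ n ∈ Finset.range N0, H s n * (((n + 1 : ℕ) : ℝ) ^ a)⁻¹ *
        ep u (n + 1) N) atTop (𝓝 (∑ n ∈ Finset.range N0, H s n * (((n + 1 : ℕ) : ℝ) ^ a)⁻¹ *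
        T u (n + 1))) := tendsto_finsetSum _ fun n _ => (tendsto_T hu (n + 1)).const_mul _
    refine le_of_tendsto h1 ?_
    filter_upwards [eventually_ge_atTop N0] with N hN
    refine le_trans ?_ (H_le_val _ h N)
    rw [H_app]
    exact Finset.sum_le_sum_of_subset_of_nonneg (Finset.range_subset_range.2 hN) fun n _ _ =>
      mul_nonneg (mul_nonneg (H_nonneg _ _) (by positivity)) (ep_nonneg _ _ _)

theorem main (U : Finset (List ℕ)) : ∃ κ : ℝ, 0 < κ ∧ ∃ M : ℕ, ∀ (a : ℕ) (s : List ℕ),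
    (∀ u ∈ U, Adm (u ++ a :: s)) → ∀ c : List ℕ → ℤ,
    (∀ u ∈ U, |(c u : ℝ)| ≤ κ * (s.length + 1)) → (∃ u ∈ U, c u ≠ 0) →
      Adm ((a + M) :: s) ∧ 0 < val ((a + M) :: s) ∧
        κ * val ((a + M) :: s) ≤ |∑ u ∈ U, (c u : ℝ) * val (u ++ a :: s)| := by
  by_cases hU : ∀ u ∈ U, Adm u
  swap
  · push Not at hU
    obtain ⟨u, hu, h⟩ := hU
    exact ⟨1, one_pos, 0, fun a s hadm => absurd (adm_append_left (hadm u hu)) h⟩
  obtain ⟨E, κ, hκ, hun⟩ := uniform U hU
  refine ⟨κ, hκ, E + 1, fun a s hadm c hc hne => ?_⟩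
  obtain ⟨σ, hσ, hlow⟩ := hun c ((s.length : ℝ) + 1) hc hne
  have hadm' : Adm ((a + (E + 1)) :: s) := by
    obtain ⟨u, hu, _⟩ := hne
    have h1 := hadm u hu
    have ha : 1 ≤ a := h1.1 a (by simp)
    refine ⟨fun x hx => ?_, fun b t hbt => ?_⟩
    · rcases List.mem_cons.1 hx with rfl | hx
      · omega
      · exact h1.1 x (by simp [hx])
    · have := (List.cons.inj hbt).1
      omega
  have hval := hasSum_split (u := []) (a := a + (E + 1)) (s := s) (by simpa using hadm')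
  rw [List.nil_append] at hval
  refine ⟨hadm', ?_, ?_⟩
  · exact (H_pos _ le_rfl).trans_le (H_le_val _ hadm' ((a + (E + 1)) :: s).length)
  have hsum : HasSum (fun n => H s n * (((n + 1 : ℕ) : ℝ) ^ a)⁻¹ *
      tailF U (fun u => (c u : ℝ)) (n + 1)) (∑ u ∈ U, (c u : ℝ) * val (u ++ a :: s)) := by
    have h1 := hasSum_sum (s := U) fun u hu => (hasSum_split (hadm u hu)).mul_left (c u : ℝ)
    refine h1.congr_fun ?_ |> id
    intro n
    unfold tailF
    rw [Finset.mul_sum]
    exact Finset.sum_congr rfl fun u _ => by ring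
  have hle : κ * val ((a + (E + 1)) :: s) ≤ σ * ∑ u ∈ U, (c u : ℝ) * val (u ++ a :: s) := by
    refine hasSum_le (fun n => ?_) (hval.mul_left κ) (hsum.mul_left σ)
    rw [T_nil, mul_one]
    by_cases hn : n < s.length
    · rw [H_small s n hn]
      simp
    · have hn' : s.length ≤ n := not_lt.1 hn
      have h1 := hlow (n + 1) (by omega) (by
        push_cast
        have : (s.length : ℝ) ≤ n := by exact_mod_cast hn'
        linarith)
      have hw : 0 ≤ H s n * (((n + 1 : ℕ) : ℝ) ^ a)⁻¹ := mul_nonneg (H_nonneg _ _) (by positivity)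
      have h2 := mul_le_mul_of_nonneg_left h1 hw
      have h3 : (((n + 1 : ℕ) : ℝ) ^ (a + (E + 1)))⁻¹ ≤
          (((n + 1 : ℕ) : ℝ) ^ a)⁻¹ * (((n + 1 : ℕ) : ℝ) ^ E)⁻¹ := by
        rw [← mul_inv, ← pow_add]
        apply inv_anti₀ (by positivity)
        apply pow_le_pow_right₀
        · push_cast
          linarith [Nat.cast_nonneg (α := ℝ) n]
        · omega
      calc κ * (H s n * (((n + 1 : ℕ) : ℝ) ^ (a + (E + 1)))⁻¹) ≤
          κ * (H s n * ((((n + 1 : ℕ) : ℝ) ^ a)⁻¹ * (((n + 1 : ℕ) : ℝ) ^ E)⁻¹)) :=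
            mul_le_mul_of_nonneg_left (mul_le_mul_of_nonneg_left h3 (H_nonneg _ _)) hκ.le
        _ = H s n * (((n + 1 : ℕ) : ℝ) ^ a)⁻¹ * (κ * (((n + 1 : ℕ) : ℝ) ^ E)⁻¹) := by ring
        _ ≤ H s n * (((n + 1 : ℕ) : ℝ) ^ a)⁻¹ * (σ * tailF U (fun u => (c u : ℝ)) (n + 1)) := h2
        _ = _ := by ring
  refine hle.trans ?_
  rcases hσ with rfl | rfl
  · rw [one_mul]
    exact le_abs_self _
  · rw [neg_one_mul]
    exact neg_le_abs _

end Run7.h53.SX
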